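import Pool.Agent.H37.CE.Ker

/-!
# CCB, chapter LOCAL: third version (without acylindricity)

`commute3`, `far3` (same constants), `ell3`, `fac3`.
-/

set_option autoImplicit false

namespace Pool.Agent.H94.CM

open scoped Pointwise
open Pool.Agent.H37.CC Pool.Agent.H37.CD Pool.Agent.H37.CE Pool.Agent.H25.CN Pool.Agent.H94.CL

section

variable {G H : Type} [Group G] [PartialOrder H] [Bas H] [MulAction G H] [BAct G H]
variable {P : Set (Vtx H) × Set H} {y : Vtx H} {T : Set G} {K n : ℕ}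

/-- a group with a bounded orbit which crosses or fixes a deep half-space and is virtually contained in the kernel is finite -/
theorem card_le3 {n k N ρ : ℕ} (hd : Dim H n) {y0 : Vtx H}
    (hA : ∀ B : Subgroup G, Fxd H k B → (∃ B' ≤ B, B'.relIndex B ≠ 0 ∧ B' ≤ Ker G ρ P y0) → (B : Set G).encard ≤ N)
    (F : Subgroup G) (hF : ∃ B' ≤ F, B'.relIndex F ≠ 0 ∧ B' ≤ Ker G ρ P y0) (y : Vtx H) {M : ℕ}
    (hM : ∀ f ∈ F, ds y (f • y) ≤ M) {w : H} (_hw : w ∉ y.U) (hc : ∀ f ∈ F, f • w = w ∨ Crs w (f • w))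
    (hk : k + n * M < dep y w) : (F : Set G).encard ≤ ((2 * n).factorial * N : ℕ) := by
  obtain ⟨F', h1, h2, h3, y1, h4, h5⟩ := fix_vtx hd F y hM
  have hw1 : w ∉ y1.U := by
    intro h6
    have h7 := dep_btw (y := y) h6
    omega
  have h6 := dep_le y y1 w
  obtain ⟨z, h7, h8⟩ := gate hd F' h4 hw1 fun b hb => hc b (h1 hb)
  obtain ⟨B0, hB0, hB0i, hB0K⟩ := hF
  have h10 : (F' : Set G).encard ≤ (N : ℕ∞) := by
    refine hA F' ⟨y1, z, by omega, fun b hb => ⟨h4 b hb, h7 b hb⟩⟩ ⟨B0 ⊓ F', inf_le_right, ?_, inf_le_left.trans hB0K⟩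
    rw [Subgroup.inf_relIndex_right]
    exact fun h => hB0i (Subgroup.relIndex_eq_zero_of_le_right h1 h)
  have hF'f : (F' : Set G).Finite := Set.finite_of_encard_le_coe h10
  have hF'c : Nat.card F' ≤ N := by
    rw [← hF'f.cast_ncard_eq] at h10
    have h11 : (F' : Set G).ncard ≤ N := by exact_mod_cast h10
    exact h11
  have : Finite F' := hF'f
  have hFc : Nat.card F = Nat.card F' * F'.relIndex F := by
    rw [Subgroup.relIndex, ← Subgroup.card_mul_index (F'.subgroupOf F)]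
    congr 1
    exact Nat.card_congr (Subgroup.subgroupOfEquivOfLe h1).toEquiv
  have hFne : Nat.card F ≠ 0 := by
    rw [hFc]
    exact Nat.mul_ne_zero Nat.card_pos.ne' h2
  have : Finite F := Nat.finite_of_card_ne_zero hFne
  have hFf : (F : Set G).Finite := this
  rw [← hFf.cast_ncard_eq]
  have h12 : (F : Set G).ncard ≤ (2 * n).factorial * N := by
    have h13 : (F : Set G).ncard = Nat.card F := rfl
    rw [h13, hFc, Nat.mul_comm]
    exact Nat.mul_le_mul h3 hF'c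
  exact_mod_cast h12

/-- (3.9), third version -/
theorem commute_loc {k N D ρ : ℕ} (hL : Lo P y T K) (hP : Rgn P) (hd : Dim H n)
    (hA : ∀ B : Subgroup G, Fxd H k B → (∃ B' ≤ B, B'.relIndex B ≠ 0 ∧ B' ≤ Ker G ρ P y) → (B : Set G).encard ≤ N)
    (hρ : n.factorial * (2 * N2 n N + 2) * D ≤ ρ)
    (hloc : ∀ γ ∈ T ^ (n.factorial * ((2 * N2 n N + 2) * (2 * n))), ∀ w ∈ P.2, (∃ z ∈ P.1, ds y z ≤ ρ ∧ Spt w y z) → γ • w ∈ P.2)
    (hD : ∀ t ∈ T, ds y (t • y) ≤ D) (hx : ∃ g ∈ T, Lx H g) (hK : K1 n k N * (D + 1) ≤ K) {a b : G} (ha : a ∈ T)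
    (hb : b ∈ T) :
    Commute (a ^ (n.factorial * ((2 * n).factorial * N).factorial)) (b ^ (n.factorial * ((2 * n).factorial * N).factorial)) := by
  classical
  obtain ⟨γ, hγ, hlx⟩ := hx
  have hKs : K0 n (N2 n N) + n.factorial * ((2 * N2 n N + 2) * (2 * n)) + n.factorial * (k + 1) +
      n.factorial * (n * (M2 n N * D)) + 3 * n + 5 ≤ K := by
    refine le_trans ?_ hK
    have h1 : n.factorial * (n * (M2 n N * D)) ≤ K1 n k N * D := by
      have h2 : n.factorial * (n * M2 n N) ≤ K1 n k N := by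
        unfold K1
        omega
      calc n.factorial * (n * (M2 n N * D)) = n.factorial * (n * M2 n N) * D := by ring
        _ ≤ K1 n k N * D := Nat.mul_le_mul_right D h2
    have h3 : K1 n k N * (D + 1) = K1 n k N * D + K1 n k N := by ring
    rw [h3]
    have h4 : K0 n (N2 n N) + n.factorial * ((2 * N2 n N + 2) * (2 * n)) + n.factorial * (k + 1) + 3 * n + 5 ≤ K1 n k N := by
      unfold K1
      omega
    omega
  obtain ⟨N', hN'⟩ : ∃ N', N' = N2 n N := ⟨_, rfl⟩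
  have hN'' : (2 * n).factorial * N = N' := hN'.symm
  rw [hN'']
  have hM2 : M2 n N = 2 * n * (2 * (N' + 1) * (n.factorial * (2 * N' + 2))) := by
    rw [hN']
    rfl
  rw [← hN'] at hKs
  have hK0 : K0 n N' = n * (n.factorial * ((2 * N' + 2) * (2 * n))) + n.factorial * (((2 * N' + 2) * (2 * n)) * n.factorial) + n +
    3 * n.factorial + n.factorial * ((2 * N' + 2) * (2 * n)) + n.factorial * (2 * N' + 2) := rfl
  obtain ⟨A, hA'⟩ : ∃ A, A = a ^ n.factorial := ⟨_, rfl⟩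
  obtain ⟨B, hB'⟩ : ∃ B, B = b ^ n.factorial := ⟨_, rfl⟩
  set S : Set G := {A, A⁻¹, B, B⁻¹} with hSdef
  have hAS : A ∈ S := Or.inl rfl
  have hBS : B ∈ S := Or.inr (Or.inr (Or.inl rfl))
  have hS : ∀ x ∈ S, ∃ h ∈ T, x = h ^ n.factorial := by
    rintro x (rfl | rfl | rfl | rfl)
    · exact ⟨a, ha, hA'⟩
    · exact ⟨a⁻¹, hL.inv a ha, by rw [hA', inv_pow]⟩
    · exact ⟨b, hb, hB'⟩
    · exact ⟨b⁻¹, hL.inv b hb, by rw [hB', inv_pow]⟩
  have hSi : ∀ x ∈ S, x⁻¹ ∈ S := by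
    rintro x (rfl | rfl | rfl | rfl)
    · exact Or.inr (Or.inl rfl)
    · rw [inv_inv]
      exact hAS
    · exact Or.inr (Or.inr (Or.inr rfl))
    · rw [inv_inv]
      exact hBS
  have hS' : ∀ x ∈ S, x ∈ T ^ n.factorial := by
    intro x hx
    obtain ⟨h, hh, rfl⟩ := hS x hx
    exact Set.pow_mem_pow hh
  have hT0m : ∀ t ∈ T0 A B N', t ∈ T ^ (n.factorial * (2 * N' + 2)) := fun t ht => (T0_bal hSi hAS hBS t ht).mem hL.one hS'
  -- products of `2 n` elements fix or cross the local half-spaces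
  have hfc : ∀ (m : ℕ) (α : G), α ∈ T ^ m → n.factorial * ((2 * N' + 2) * (2 * n)) + m ≤ K → ∀ w ∈ P.2, Spt w y (α • y) →
      ∀ δ ∈ T0 A B N' ^ (2 * n), δ • w = w ∨ Crs w (δ • w) := by
    intro m α hα hm w hw hs δ hδ
    have hbδ : Bal S ((2 * N' + 2) * (2 * n)) δ := Bal.set_pow (T0_bal hSi hAS hBS) (2 * n) δ hδ
    refine hL.fix_or_crs hP hα hw hs (hbδ.mem hL.one hS') hm ?_ ?_
    · intro h2
      exact hL.zero_type hP hd hS hbδ (by omega) hw (lt_pow h2 (Nat.factorial_pos n))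
    · intro h2
      exact hL.zero_type hP hd hS (hbδ.inv hSi) (by omega) hw (lt_pow h2 (Nat.factorial_pos n))
  -- the orbit is bounded
  have hb1 := bdo2 hP hd hL.base (T0_one (A := A) (B := B) (N := N')) T0_inv (fun t ht => hL.pt t (hL.mono (by omega) (hT0m t ht)))
    (by
      rintro w hw ⟨t, ht, hs⟩
      exact hfc _ t (hT0m t ht) (by omega) w hw hs)
  have hLc : {w | w ∈ P.2 ∧ ∃ t ∈ T0 A B N', Spt w y (t • y)}.ncard ≤ 2 * (N' + 1) * (n.factorial * (2 * N' + 2) * D) := by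
    obtain ⟨F, hF1, hF2⟩ := T0_card (A := A) (B := B) (N := N')
    have hfin : ∀ t : G, {w | w ∈ P.2 ∧ Spt w y (t • y)}.Finite := fun t => hP.fin2.subset fun w hw => hw.1
    have h2 : {w | w ∈ P.2 ∧ ∃ t ∈ T0 A B N', Spt w y (t • y)} ⊆
        (((F.filter fun t => t ∈ T0 A B N').biUnion fun t => (hfin t).toFinset : Finset H) : Set H) := by
      rintro w ⟨hw, t, ht, hs⟩
      refine Finset.mem_coe.2 (Finset.mem_biUnion.2 ⟨t, Finset.mem_filter.2 ⟨hF1 ht, ht⟩, ?_⟩)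
      exact (Set.Finite.mem_toFinset _).2 ⟨hw, hs⟩
    refine (Set.ncard_le_ncard h2 (Finset.finite_toSet _)).trans ?_
    rw [Set.ncard_coe_finset]
    refine (Finset.card_biUnion_le_card_mul _ _ (n.factorial * (2 * N' + 2) * D) fun t ht => ?_).trans ?_
    · rw [← Set.ncard_eq_toFinset_card _ (hfin t)]
      exact (spt_card hP y (t • y)).trans (Lo.ds_pow hD _ t (hT0m t (Finset.mem_filter.1 ht).2))
    · exact Nat.mul_le_mul_right _ ((Finset.card_filter_le _ _).trans hF2)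
  have hb2 : ∀ f ∈ Subgroup.closure (T0 A B N'), ds y (f • y) ≤ M2 n N * D := by
    intro f hf
    refine (hb1 f hf).trans ?_
    rw [hM2]
    calc 2 * n * {w | w ∈ P.2 ∧ ∃ t ∈ T0 A B N', Spt w y (t • y)}.ncard
        ≤ 2 * n * (2 * (N' + 1) * (n.factorial * (2 * N' + 2) * D)) := Nat.mul_le_mul_left _ hLc
      _ = 2 * n * (2 * (N' + 1) * (n.factorial * (2 * N' + 2))) * D := by ring
  -- the deep wall
  obtain ⟨w1, E, t, hw1, hw1t, ht, hE, hlt⟩ := deep_wall hL hP hd (by omega) hγ hlx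
  obtain ⟨i, hi⟩ : ∃ i, i = k + n * (M2 n N * D) := ⟨_, rfl⟩
  obtain ⟨hwy, hdep⟩ := deep_dep hw1 hlt i
  have hα : E ^ i * t ∈ T ^ (n.factorial * i + 1) := by
    rw [pow_succ, pow_mul]
    exact Set.mul_mem_mul (Set.pow_mem_pow hE) ht
  have hwα : E ^ i • w1 ∈ ((E ^ i * t) • y).U := by
    rw [mul_smul, smul_mem_smul]
    exact hw1t
  have hni : n.factorial * i + 1 = n.factorial * k + n.factorial * (n * (M2 n N * D)) + 1 := by
    rw [hi]
    ring
  have hnk : n.factorial * (k + 1) = n.factorial * k + n.factorial := by ring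
  have hle : n.factorial * i + 1 ≤ K := by omega
  have hαy : (E ^ i * t) • y ∈ P.1 := hL.pt _ (hL.mono hle hα)
  have hle2 : n.factorial * ((2 * N' + 2) * (2 * n)) + (n.factorial * i + 1) ≤ K := by omega
  have hcw : ∀ f ∈ Subgroup.closure (T0 A B N'), f • (E ^ i • w1) = E ^ i • w1 ∨ Crs (E ^ i • w1) (f • (E ^ i • w1)) := by
    rcases hP.sep _ hαy _ hL.base _ hwα hwy with h2 | h2
    · refine orbit_crs hd T0_one T0_inv (hfc _ _ hα hle2 _ h2 ?_)
      exact fun e => hwy (e.2 hwα)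
    · intro f hf
      have h3 := orbit_crs hd T0_one T0_inv (hfc _ _ hα hle2 _ h2 (by
        unfold Spt
        rw [Vtx.st_mem, Vtx.st_mem, not_iff_not]
        exact fun e => hwy (e.2 hwα))) f hf
      rw [smul_st] at h3
      rcases h3 with h3 | h3
      · exact Or.inl (st_inj h3)
      · exact Or.inr (crs_st h3)
  -- the subgroup of finite index in the kernel
  have hfin : ∃ B' ≤ Subgroup.closure (T0 A B N'), B'.relIndex (Subgroup.closure (T0 A B N')) ≠ 0 ∧ B' ≤ Ker G ρ P y := by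
    refine ker_fin hP hd hL.base T0_one T0_inv (fun t ht => ⟨hL.pt t (hL.mono (by omega) (hT0m t ht)), ?_⟩) fun w hw hs δ hδ => ?_
    · refine (Lo.ds_pow hD _ t (hT0m t ht)).trans ?_
      rw [hN']
      exact hρ
    · have hbδ : Bal S ((2 * N' + 2) * (2 * n)) δ := Bal.set_pow (T0_bal hSi hAS hBS) (2 * n) δ hδ
      have h2 : δ • w ∈ P.2 := by
        refine hloc δ ?_ w hw hs
        rw [← hN']
        exact hbδ.mem hL.one hS'
      by_cases h4 : δ • w = w
      · exact Or.inl h4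
      · refine Or.inr ⟨fun h5 => ?_, fun h5 => ?_, (hP.nf _ hw _ h2).1, fun h5 => (hP.nf _ hw _ h2).2 (st_le_comm.1 h5)⟩
        · exact hL.zero_type hP hd hS (hbδ.inv hSi) (by omega) hw
            (lt_pow (inv_lt_iff.2 (lt_of_le_of_ne h5 (Ne.symm h4))) (Nat.factorial_pos n))
        · exact hL.zero_type hP hd hS hbδ (by omega) hw (lt_pow (lt_of_le_of_ne h5 h4) (Nat.factorial_pos n))
  have hcard := card_le3 hd hA (Subgroup.closure (T0 A B N')) hfin y hb2 hwy hcw (by omega)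
  rw [hN''] at hcard
  have hcomm := comm_of_card hcard
  rw [pow_mul, pow_mul, ← hA', ← hB']
  exact hcomm.pow_right _

end

/-- the constant of `commute3` and `far3` -/
def kap3 (n k N : ℕ) : ℕ :=
  K1 n k N + n.factorial * ((2 * N2 n N + 2) * (2 * n)) + n.factorial * (2 * N2 n N + 2) + 2

/-- the exponent of `commute3` -/
def Q3 (n N : ℕ) : ℕ := n.factorial * ((2 * n).factorial * N).factorial

theorem Q3_pos (n N : ℕ) : 0 < Q3 n N := Nat.mul_pos n.factorial_pos (Nat.factorial_pos _)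

section

variable {G H : Type} [Group G] [PartialOrder H] [Bas H] [MulAction G H] [BAct G H]

/-- the `Q`-th powers of the near symmetries commute if the subgroups which fix two far vertices and are virtually contained in the kernel
are small -/
theorem commute3 {n k N : ℕ} (hd : Dim H n) {P : Set (Vtx H) × Set H} (hP : Rgn P) {y : Vtx H} (hy : y ∈ P.1) {b r ρ : ℕ}
    (hρ : kap3 n k N * (b + 1) ^ 2 ≤ ρ) (hr : ρ + kap3 n k N * (b + 1) ^ 2 ≤ r)
    (hA : ∀ B : Subgroup G, Fxd H k B → (∃ B' ≤ B, B'.relIndex B ≠ 0 ∧ B' ≤ Ker G ρ P y) → (B : Set G).encard ≤ N)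
    (hx : ∃ g ∈ Tb G b r P y, Lx H g) {x z : G} (hxT : x ∈ Tb G b r P y) (hz : z ∈ Tb G b r P y) :
    x ^ Q3 n N * z ^ Q3 n N = z ^ Q3 n N * x ^ Q3 n N := by
  obtain ⟨g, hg, hgx⟩ := hx
  obtain ⟨E, hE⟩ : ∃ E, E = n.factorial * ((2 * N2 n N + 2) * (2 * n)) := ⟨_, rfl⟩
  obtain ⟨E', hE'⟩ : ∃ E', E' = n.factorial * (2 * N2 n N + 2) := ⟨_, rfl⟩
  have hk : kap3 n k N = K1 n k N + E + E' + 2 := by
    rw [hE, hE']
    rfl
  have e1 : kap3 n k N * (b + 1) ^ 2 = K1 n k N * (b + 1) * b + K1 n k N * (b + 1) + E * (b * b) + 2 * (E * b) + E +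
      E' * (b * b) + 2 * (E' * b) + E' + 2 * (b * b) + b * 3 + b + 2 := by
    rw [hk]
    ring
  rw [e1] at hρ hr
  have hL : Lo P y (Tpm G b r P y) (K1 n k N * (b + 1)) := lo_of hy (ρ := r - b) (by omega) (by omega)
  have hD : ∀ t ∈ Tpm G b r P y, ds y (t • y) ≤ b := fun t ht =>
    (tpm_sub hy (show (r - b) + b ≤ r by omega) ht).2.1
  refine commute_loc hL hP hd hA ?_ ?_ hD ⟨g, Or.inl hg, hgx⟩ le_rfl (Or.inl hxT) (Or.inl hz)
  · rw [← hE']
    omega
  · intro γ hγ w hw hs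
    rw [← hE] at hγ
    have h1 := pow_sub hy (tpm_sub hy (show (r - b) + b ≤ r by omega)) E ρ (by omega) hγ
    exact (Tb_wall h1 le_rfl hw hs).1

/-- if some near symmetry has unbounded orbits then the region has a point at distance at least `k` -/
theorem far3 {n k N : ℕ} (hd : Dim H n) {P : Set (Vtx H) × Set H} (hP : Rgn P) {y : Vtx H} (hy : y ∈ P.1) {b r : ℕ}
    (hr : kap3 n k N * (b + 1) ^ 2 ≤ r) (hx : ∃ g ∈ Tb G b r P y, Lx H g) :
    ∃ z ∈ P.1, k ≤ ds y z ∧ ds y z ≤ kap3 n k N * (b + 1) ^ 2 := by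
  obtain ⟨g, hg, hgx⟩ := hx
  have hK1 : n.factorial * (k + 1) + 3 * n + 5 ≤ K1 n k N := by
    unfold K1
    omega
  obtain ⟨E, hE⟩ : ∃ E, E = n.factorial * ((2 * N2 n N + 2) * (2 * n)) := ⟨_, rfl⟩
  obtain ⟨E', hE'⟩ : ∃ E', E' = n.factorial * (2 * N2 n N + 2) := ⟨_, rfl⟩
  have hk : kap3 n k N = K1 n k N + E + E' + 2 := by
    rw [hE, hE']
    rfl
  have e1 : kap3 n k N * (b + 1) ^ 2 = K1 n k N * (b + 1) * b + K1 n k N * (b + 1) + E * (b * b) + 2 * (E * b) + E +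
      E' * (b * b) + 2 * (E' * b) + E' + 2 * (b * b) + b * 3 + b + 2 := by
    rw [hk]
    ring
  rw [e1] at hr ⊢
  have e2 : K1 n k N * (b + 1) = K1 n k N * b + K1 n k N := by ring
  have e3 : K1 n k N * (b + 1) * b = K1 n k N * b * b + K1 n k N * b := by ring
  have hL : Lo P y (Tpm G b r P y) (K1 n k N * (b + 1)) := lo_of hy (ρ := r - b) (by omega) (by omega)
  have hD : ∀ t ∈ Tpm G b r P y, ds y (t • y) ≤ b := fun t ht =>
    (tpm_sub hy (show (r - b) + b ≤ r by omega) ht).2.1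
  obtain ⟨w1, E1, t, hw1, hw1t, ht, hE1, hlt⟩ := deep_wall hL hP hd (by omega) (Or.inl hg) hgx
  obtain ⟨hwy, hdep⟩ := deep_dep hw1 hlt k
  have hα : E1 ^ k * t ∈ Tpm G b r P y ^ (n.factorial * k + 1) := by
    rw [pow_succ, pow_mul]
    exact Set.mul_mem_mul (Set.pow_mem_pow hE1) ht
  have hwα : E1 ^ k • w1 ∈ ((E1 ^ k * t) • y).U := by
    rw [mul_smul, smul_mem_smul]
    exact hw1t
  have hnk : n.factorial * (k + 1) = n.factorial * k + n.factorial := by ring
  refine ⟨(E1 ^ k * t) • y, hL.pt _ (hL.mono (by omega) hα), ?_, ?_⟩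
  · have h1 := dep_btw (y := y) hwα
    omega
  · have h1 := Lo.ds_pow hD _ _ hα
    have h2 : (n.factorial * k + 1) * b ≤ K1 n k N * b := Nat.mul_le_mul_right b (by omega)
    omega

/-- if the near symmetries have bounded orbits then they generate a group with bounded orbits -/
theorem ell3 {n : ℕ} (hd : Dim H n) {P : Set (Vtx H) × Set H} (hP : Rgn P) {y : Vtx H} (hy : y ∈ P.1) {b r : ℕ}
    (hr : b ≤ r) (ho : ∀ γ ∈ Tb G (2 * n * b) r P y, ¬ Lx H γ) :
    Ell H (Subgroup.closure (Tb G b (r + (2 * n + 1) * b) P y)) := by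
  have e2 : (2 * n + 1) * b = 2 * n * b + b := by ring
  have hL : Lo P y (Tpm G b (r + (2 * n + 1) * b) P y) (2 * n + 1) :=
    lo_of hy (ρ := r + 2 * n * b) (by omega) (by omega)
  obtain ⟨M, hM⟩ := ell2 hL hP hd le_rfl (by
    intro γ hγ
    exact ho γ (pow_sub hy (tpm_sub hy (show (r + 2 * n * b) + b ≤ r + (2 * n + 1) * b by omega)) (2 * n) r le_rfl hγ))
  exact ⟨M, fun b hb => hM b (Subgroup.closure_mono (fun γ hγ => Or.inl hγ) hb)⟩

theorem not_lx_of_mem {g h : G} (hg : ¬ Lx H g) (hh : h ∈ Subgroup.zpowers g) : ¬ Lx H h := by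
  unfold Lx at hg ⊢
  rw [not_not] at hg ⊢
  obtain ⟨M, hM⟩ := hg
  exact ⟨M, fun b hb => hM b ((Subgroup.zpowers_le.2 hh) hb)⟩

/-- a near symmetry with bounded orbits has a power in the kernel -/
theorem fac3 {n : ℕ} (hd : Dim H n) {P : Set (Vtx H) × Set H} (hP : Rgn P) {y : Vtx H} (hy : y ∈ P.1) {b r ρ : ℕ}
    (hr : ρ + (n + n.factorial) * b ≤ r) {c : G} (hc : c ∈ Tb G b r P y) (hx : ¬ Lx H c) :
    c ^ n.factorial ∈ Ker G ρ P y := by
  have e1 : (n + n.factorial) * b = n * b + n.factorial * b := by ring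
  rw [e1] at hr
  refine Ker_anti (show ρ ≤ ρ + n.factorial * b by omega) ?_
  have hv : ∀ j : ℕ, j * b ≤ r → c ^ j • y ∈ P.1 ∧ ds y (c ^ j • y) ≤ j * b := by
    intro j
    induction j with
    | zero =>
      intro _
      rw [pow_zero, one_smul, Pool.Agent.H54.CV.ds_self]
      exact ⟨hy, Nat.zero_le _⟩
    | succ j ih =>
      intro hj
      have e : (j + 1) * b = j * b + b := by ring
      rw [e] at hj ⊢
      obtain ⟨h1, h2⟩ := ih (by omega)
      rw [pow_succ', mul_smul]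
      refine ⟨Tb_vert hc h1 (by omega), ?_⟩
      have h3 := Pool.Agent.H54.CV.ds_tri y (c • y) (c • c ^ j • y)
      rw [Pool.Agent.H54.CV.ds_smul] at h3
      have h4 := hc.2.1
      omega
  obtain ⟨h1, h2⟩ := hv n.factorial (by omega)
  refine fix_of_near hP hy h1 (by omega) fun w hw hs => ?_
  have hw' : ∀ j ≤ n, c ^ j • w ∈ P.2 ∧ ∃ z ∈ P.1, ds y z ≤ ρ + n.factorial * b + j * b ∧ Spt (c ^ j • w) y z := by
    intro j
    induction j with
    | zero =>
      intro _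
      rw [pow_zero, one_smul, zero_mul, add_zero]
      exact ⟨hw, hs⟩
    | succ j ih =>
      intro hj
      obtain ⟨h3, h4⟩ := ih (by omega)
      have hjn : (j + 1) * b ≤ n * b := Nat.mul_le_mul_right b hj
      have e : (j + 1) * b = j * b + b := by ring
      rw [e] at hjn
      rw [pow_succ', mul_smul, e, ← add_assoc]
      exact Tb_wall hc (by omega) h3 h4
  have htri : Tri (c ^ n.factorial) w := pow_type hd fun i hi j hj => hP.nf _ (hw' i hi).1 _ (hw' j hj).1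
  rcases htri with h3 | h3 | h3
  · exact h3
  · exact absurd (lx_of_lt h3) (not_lx_of_mem hx (Subgroup.npow_mem_zpowers c _))
  · exact absurd (lx_of_lt (inv_lt_iff.2 h3)) (not_lx_of_mem hx (inv_mem (Subgroup.npow_mem_zpowers c _)))

end

end Pool.Agent.H94.CM
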